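import Mathlib

namespace Pool.Agent.Results.MP_83c1a8_pr.Counter

open SimpleGraph

/-- number of spanning subgraphs `H ≤ G` with property `P` -/
noncomputable def cnt {n : ℕ} (G : SimpleGraph (Fin n)) (P : SimpleGraph (Fin n) → Prop) : ℕ :=
  Nat.card {H : SimpleGraph (Fin n) // H ≤ G ∧ P H}

/-- probability that the edge `uv` is open under the uniform measure on spanning subgraphs
of `G` with property `P` -/
noncomputable def marg {n : ℕ} (G : SimpleGraph (Fin n)) (P : SimpleGraph (Fin n) → Prop)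
    (u v : Fin n) : ℚ :=
  (cnt G (fun H => P H ∧ H.Adj u v) : ℚ) / cnt G P

/-- spanning forest with `|V| - 2` edges -/
def TwoF {n : ℕ} (H : SimpleGraph (Fin n)) : Prop := H.IsAcyclic ∧ H.edgeSet.ncard + 2 = n

/-- connected spanning subgraph with `|V| + 2` edges -/
def TwoC {n : ℕ} (H : SimpleGraph (Fin n)) : Prop := H.Connected ∧ H.edgeSet.ncard = n + 2

def ea : Fin 10 → Fin 7 := ![0, 1, 2, 3, 1, 1, 1, 2, 2, 0]
def eb : Fin 10 → Fin 7 := ![1, 2, 3, 4, 5, 6, 4, 5, 6, 2]

def mk (w : Fin 10 → Bool) : SimpleGraph (Fin 7) :=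
  fromEdgeSet {e | ∃ i, w i = true ∧ e = s(ea i, eb i)}

theorem inj : ∀ i j, s(ea i, eb i) = s(ea j, eb j) → i = j := by decide
theorem nd : ∀ i, ea i ≠ eb i := by decide

theorem mk_adj (w : Fin 10 → Bool) (a b : Fin 7) :
    (mk w).Adj a b ↔ ∃ i, w i = true ∧ s(a, b) = s(ea i, eb i) := by
  simp only [mk, fromEdgeSet_adj, Set.mem_setOf_eq]
  refine ⟨fun h => h.1, fun h => ⟨h, ?_⟩⟩
  obtain ⟨i, _, h⟩ := h
  rintro rfl
  rcases Sym2.eq_iff.1 h with ⟨h1, h2⟩ | ⟨h1, h2⟩
  · exact nd i (h1.symm.trans h2)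
  · exact nd i (h2.symm.trans h1)

theorem mk_e (w : Fin 10 → Bool) (i : Fin 10) : (mk w).Adj (ea i) (eb i) ↔ w i = true := by
  rw [mk_adj]
  exact ⟨fun ⟨j, h, e⟩ => inj _ _ e ▸ h, fun h => ⟨i, h, rfl⟩⟩

def G0 : SimpleGraph (Fin 7) := mk fun _ => true

def bits (k : ℕ) : Fin 10 → Bool := fun i => k.testBit i

theorem cnt_eq (P : SimpleGraph (Fin 7) → Prop) (p : (Fin 10 → Bool) → Bool)
    (h : ∀ k < 1024, P (mk (bits k)) ↔ p (bits k) = true) :
    cnt G0 P = ((Finset.range 1024).filter fun k => p (bits k) = true).card := by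
  classical
  rw [← Fintype.card_coe, ← Nat.card_eq_fintype_card]
  symm
  refine Nat.card_congr (Equiv.ofBijective
    (fun w => ⟨mk (bits w.1), fun a b hab => ?_,
      (h _ (Finset.mem_range.1 (Finset.mem_filter.1 w.2).1)).2 (Finset.mem_filter.1 w.2).2⟩)
    ⟨?_, ?_⟩)
  · obtain ⟨i, _, e⟩ := (mk_adj _ _ _).1 hab
    exact (mk_adj _ _ _).2 ⟨i, rfl, e⟩
  · rintro ⟨w, hw⟩ ⟨w', hw'⟩ e
    have e' : mk (bits w) = mk (bits w') := congrArg Subtype.val e
    have l1 : w < 2 ^ 10 := Finset.mem_range.1 (Finset.mem_filter.1 hw).1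
    have l2 : w' < 2 ^ 10 := Finset.mem_range.1 (Finset.mem_filter.1 hw').1
    apply Subtype.ext
    apply Nat.eq_of_testBit_eq
    intro i
    by_cases hi : i < 10
    · have := mk_e (bits w) ⟨i, hi⟩
      rw [e', mk_e] at this
      simp only [bits] at this
      exact Bool.eq_iff_iff.2 this.symm
    · have : 2 ^ 10 ≤ 2 ^ i := Nat.pow_le_pow_right (by norm_num) (by omega)
      simp only
      rw [Nat.testBit_lt_two_pow (l1.trans_le this), Nat.testBit_lt_two_pow (l2.trans_le this)]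
  · rintro ⟨H, hH, hP⟩
    have e0 : bits (Nat.ofBits fun i : Fin 10 => decide (H.Adj (ea i) (eb i))) =
        fun i => decide (H.Adj (ea i) (eb i)) := by
      funext i
      exact Nat.testBit_ofBits_lt _ _ i.2
    have l0 : (Nat.ofBits fun i : Fin 10 => decide (H.Adj (ea i) (eb i))) < 1024 :=
      Nat.ofBits_lt_two_pow _
    have e : mk (fun i => decide (H.Adj (ea i) (eb i))) = H := by
      ext a b
      rw [mk_adj]
      constructor
      · rintro ⟨i, h1, h2⟩
        have h3 : s(ea i, eb i) ∈ H.edgeSet := by simpa using h1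
        rw [← h2] at h3
        exact h3
      · intro hab
        obtain ⟨i, _, e⟩ := (mk_adj _ _ _).1 (hH hab)
        refine ⟨i, ?_, e⟩
        have h3 : s(a, b) ∈ H.edgeSet := hab
        rw [e] at h3
        simpa using h3
    rw [← e0] at e
    exact ⟨⟨_, Finset.mem_filter.2 ⟨Finset.mem_range.2 l0, (h _ l0).1 (e.symm ▸ hP)⟩⟩,
      Subtype.ext e⟩

theorem card_mk (w : Fin 10 → Bool) :
    (mk w).edgeSet.ncard = (Finset.univ.filter fun i => w i = true).card := by
  have : (mk w).edgeSet = (fun i => s(ea i, eb i)) ''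
      ((Finset.univ.filter fun i => w i = true : Finset (Fin 10)) : Set (Fin 10)) := by
    ext e
    induction e using Sym2.ind with
    | _ a b =>
      rw [mem_edgeSet, mk_adj]
      constructor
      · rintro ⟨i, h1, h2⟩
        exact ⟨i, by simpa using h1, h2.symm⟩
      · rintro ⟨i, h1, h2⟩
        exact ⟨i, by simpa using h1, h2.symm⟩
  rw [this, Set.ncard_image_of_injective _ (fun i j => inj i j), Set.ncard_coe_finset]

def F (n : ℕ) (f : ℕ → ℕ) : ℕ := match n with
  | 0 => f 0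
  | m + 1 => f (m + 1)

theorem F_eq (n : ℕ) (f : ℕ → ℕ) : F n f = f n := by cases n <;> rfl

def st (w : Fin 10 → Bool) : List (Fin 10) → ℕ → ℕ
  | [], l => l
  | i :: t, l => F (bif w i && (l.testBit (ea i) || l.testBit (eb i))
      then l ||| 2 ^ (ea i).1 ||| 2 ^ (eb i).1 else l) (st w t)

def comp (w : Fin 10 → Bool) (u : Fin 7) : ℕ :=
  st w [0, 1, 2, 3, 4, 5, 6, 7, 8, 9, 8, 7, 6, 5, 4, 3, 2, 1, 0, 1, 2, 3, 4, 5, 6, 7, 8, 9,
    8, 7, 6, 5, 4, 3, 2, 1, 0] (2 ^ u.1)

theorem st_sound (w : Fin 10 → Bool) (u : Fin 7) (t : List (Fin 10)) (l : ℕ)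
    (h : ∀ v : Fin 7, l.testBit v = true → (mk w).Reachable u v) :
    ∀ v : Fin 7, (st w t l).testBit v = true → (mk w).Reachable u v := by
  induction t generalizing l with
  | nil => exact h
  | cons i t ih =>
    rw [st, F_eq]
    apply ih
    intro v hv
    cases hc : (w i && (l.testBit (ea i) || l.testBit (eb i)))
    · rw [hc] at hv; exact h v hv
    · rw [hc] at hv
      simp only [Bool.and_eq_true, Bool.or_eq_true] at hc
      have ha := ((mk_e w i).2 hc.1).reachable
      have h1 : (mk w).Reachable u (ea i) :=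
        hc.2.elim (h _) fun h2 => (h _ h2).trans ha.symm
      simp only [cond_true, Nat.testBit_or, Nat.testBit_two_pow, Bool.or_eq_true,
        decide_eq_true_eq] at hv
      rcases hv with (hv | hv) | hv
      · exact h v hv
      · rw [← Fin.ext hv]; exact h1
      · rw [← Fin.ext hv]; exact h1.trans ha

theorem sound (w : Fin 10 → Bool) (u : Fin 7) :
    ∀ v : Fin 7, (comp w u).testBit v = true → (mk w).Reachable u v := by
  refine st_sound _ _ _ _ ?_
  intro v hv
  simp only [Nat.testBit_two_pow, decide_eq_true_eq] at hv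
  rw [Fin.ext hv]

def cl (w : Fin 10 → Bool) (u : Fin 7) : Bool :=
  F (comp w u) (fun l => bif l.testBit u &&
    (List.finRange 10).all fun i => !w i || (l.testBit (ea i) == l.testBit (eb i))
      then 1 else 0) == 1

theorem reach (w : Fin 10 → Bool) (u v : Fin 7) (c : cl w u = true) :
    (mk w).Reachable u v ↔ (comp w u).testBit v = true := by
  refine ⟨fun h => ?_, sound w u v⟩
  simp only [cl, F_eq, beq_iff_eq, Bool.cond_eq_ite, ite_eq_left_iff, zero_ne_one, imp_false,
    not_not, Bool.and_eq_true, List.all_eq_true, List.mem_finRange,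
    forall_const, Bool.or_eq_true, Bool.not_eq_true'] at c
  rw [reachable_iff_reflTransGen] at h
  induction h with
  | refl => exact c.1
  | tail _ h ih =>
    obtain ⟨i, h1, h2⟩ := (mk_adj _ _ _).1 h
    have := (c.2 i).resolve_left (by simp [h1])
    rcases Sym2.eq_iff.1 h2 with ⟨rfl, rfl⟩ | ⟨rfl, rfl⟩
    · exact this ▸ ih
    · exact this ▸ ih

def dl (w : Fin 10 → Bool) (i : Fin 10) : Fin 10 → Bool := fun j => w j && decide (j ≠ i)

def acy (w : Fin 10 → Bool) : Bool :=
  (List.finRange 10).all fun i => !w i || !(comp (dl w i) (ea i)).testBit (eb i)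

theorem del (w : Fin 10 → Bool) (i : Fin 10) :
    (mk w).deleteEdges {s(ea i, eb i)} = mk (dl w i) := by
  ext a b
  rw [deleteEdges_adj, mk_adj, mk_adj]
  constructor
  · rintro ⟨⟨j, h1, h2⟩, h3⟩
    refine ⟨j, ?_, h2⟩
    have : j ≠ i := by rintro rfl; exact h3 h2
    simp [dl, h1, this]
  · rintro ⟨j, h1, h2⟩
    simp only [dl, Bool.and_eq_true, decide_eq_true_eq] at h1
    exact ⟨⟨j, h1.1, h2⟩, fun h => h1.2 (inj _ _ (h2.symm.trans h))⟩

theorem acy_iff (w : Fin 10 → Bool) (c : ∀ i, w i = true → cl (dl w i) (ea i) = true) :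
    (mk w).IsAcyclic ↔ acy w = true := by
  rw [isAcyclic_iff_forall_isBridge]
  simp only [acy, List.all_eq_true, List.mem_finRange, forall_const, Bool.or_eq_true,
    Bool.not_eq_true']
  constructor
  · intro h i
    cases hw : w i
    · exact Or.inl rfl
    · have := h ((mem_edgeSet _).2 ((mk_e w i).2 hw))
      rw [isBridge_iff, del, reach _ _ _ (c i hw)] at this
      exact Or.inr (by simpa using this)
  · intro h e he
    induction e using Sym2.ind with
    | _ a b =>
      obtain ⟨i, h1, h2⟩ := (mk_adj _ _ _).1 he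
      rw [h2, isBridge_iff, del, reach _ _ _ (c i h1)]
      simpa using (h i).resolve_left (by simp [h1])

def con (w : Fin 10 → Bool) : Bool := (List.finRange 7).all fun v => (comp w 0).testBit v

theorem con_iff (w : Fin 10 → Bool) (c : cl w 0 = true) : (mk w).Connected ↔ con w = true := by
  simp only [con, List.all_eq_true, List.mem_finRange, forall_const, ← reach _ _ _ c]
  exact ⟨fun h v => h 0 v, fun h => ⟨fun u v => (h u).symm.trans (h v)⟩⟩

def sz (w : Fin 10 → Bool) : ℕ := (Finset.univ.filter fun i => w i = true).card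

theorem cl5 : ∀ k < 1024, sz (bits k) + 2 = 7 →
    ∀ i, bits k i = true → cl (dl (bits k) i) (ea i) = true := by decide +kernel

theorem cl6 : ∀ k < 1024, sz (bits k) + 1 = 7 → cl (bits k) 0 = true := by decide +kernel

def tf (w : Fin 10 → Bool) : Bool := decide (sz w + 2 = 7) && acy w

theorem tf_iff (k : ℕ) (hk : k < 1024) : TwoF (mk (bits k)) ↔ tf (bits k) = true := by
  simp only [TwoF, tf, card_mk, Bool.and_eq_true, decide_eq_true_eq]
  exact ⟨fun h => ⟨h.2, (acy_iff _ (cl5 k hk h.2)).1 h.1⟩,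
    fun h => ⟨(acy_iff _ (cl5 k hk h.1)).2 h.2, h.1⟩⟩

def tr (w : Fin 10 → Bool) : Bool := decide (sz w + 1 = 7) && con w

theorem tr_iff (k : ℕ) (hk : k < 1024) : (mk (bits k)).IsTree ↔ tr (bits k) = true := by
  rw [isTree_iff_connected_and_card, Nat.card_coe_set_eq, card_mk]
  simp only [tr, Bool.and_eq_true, decide_eq_true_eq, Nat.card_eq_fintype_card, Fintype.card_fin]
  exact ⟨fun h => ⟨h.2, (con_iff _ (cl6 k hk h.2)).1 h.1⟩,
    fun h => ⟨(con_iff _ (cl6 k hk h.1)).2 h.2, h.1⟩⟩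

theorem e12 (w : Fin 10 → Bool) : (mk w).Adj 1 2 ↔ w 1 = true := mk_e w 1

theorem c1 : cnt G0 TwoF = 168 := (cnt_eq _ _ tf_iff).trans (by decide +kernel)
theorem c2 : cnt G0 IsTree = 68 := (cnt_eq _ _ tr_iff).trans (by decide +kernel)
theorem c3 : cnt G0 (fun H => TwoF H ∧ H.Adj 1 2) = 60 :=
  (cnt_eq _ (fun w => w 1 && tf w) (fun k hk => by
    simp only [tf_iff k hk, e12, Bool.and_eq_true, and_comm])).trans (by decide +kernel)
theorem c4 : cnt G0 (fun H => IsTree H ∧ H.Adj 1 2) = 24 :=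
  (cnt_eq _ (fun w => w 1 && tr w) (fun k hk => by
    simp only [tr_iff k hk, e12, Bool.and_eq_true, and_comm])).trans (by decide +kernel)

theorem result : ¬ ∀ (n : ℕ) (G : SimpleGraph (Fin n)), G.Connected → 2 ≤ n →
    n + 2 ≤ G.edgeSet.ncard → ∀ u v, G.Adj u v →
      marg G TwoF u v ≤ marg G IsTree u v ∧ marg G IsTree u v ≤ marg G TwoC u v := by
  intro h
  have := (h 7 G0 ((con_iff _ (by decide +kernel)).2 (by decide +kernel)) (by norm_num)
    (by rw [G0, card_mk]; decide) 1 2 ((e12 _).2 rfl)).1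
  simp only [marg, c1, c2, c3, c4] at this
  norm_num at this

end Pool.Agent.Results.MP_83c1a8_pr.Counter
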